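import Pool.Agent.Helper74_ABCT.Mv

/-!
# CG3: condition (R3) for the facets of a generic vertex (MP_a17fcb_ag)
-/

open MvPolynomial

namespace ABCT

namespace H74

open FlatCell

/-- numerical facts on a one-vertex net -/
theorem isVtx_facts {l : List ℕ} {r : ℕ} {S : Net} (h : Net.IsVtx l r S) :
    1 ≤ r ∧ r < l.length ∧ 3 ≤ l.length ∧ (l.length = 3 ∨ (2 ≤ r ∧ r + 2 ≤ l.length)) := by
  cases h with
  | gen _ h₁ h₂ => omega
  | black h => omega
  | white h => omega

section

variable {L A R : List ℕ} {ρ q d r : ℕ} {SA SB : Net}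
  {gA : ℕ → MvPolynomial SA.G ℕ} {gB : ℕ → MvPolynomial SB.G ℕ}

/-- gap values, by position -/
noncomputable def uu (φ : FacetData (Net.gen (L ++ A ++ R ++ [ρ]) (d + r)).flat
    (Net.tsum SA SB q).flat) (h : ℕ) : RatFunc (Net.tsum SA SB q).flat.F :=
  if hh : h < (L ++ A ++ R ++ [ρ]).length - 2 then
    φ.psi (Sum.inr (show (Net.gen (L ++ A ++ R ++ [ρ]) (d + r)).flat.G from
      (⟨h, hh⟩ : Fin ((L ++ A ++ R ++ [ρ]).length - 2)))) else 1

theorem evD (φ : FacetData (Net.gen (L ++ A ++ R ++ [ρ]) (d + r)).flat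
    (Net.tsum SA SB q).flat) (a b : ℕ) (hb : b ≤ (L ++ A ++ R ++ [ρ]).length - 2) :
    eval₂ (Nat.castRingHom (RatFunc (Net.tsum SA SB q).flat.F))
      (fun h : Fin ((L ++ A ++ R ++ [ρ]).length - 2) => φ.psi (Sum.inr
        (show (Net.gen (L ++ A ++ R ++ [ρ]) (d + r)).flat.G from h)))
      (Net.D ((L ++ A ++ R ++ [ρ]).length - 2) a b) =
      ∑ h ∈ Finset.Ico a b, uu φ h := by
  rw [Net.D, eval₂_sum]
  simp only [eval₂_X]
  refine Finset.sum_bij (fun h _ => h.1) ?_ ?_ ?_ ?_
  · intro h hh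
    rw [Finset.mem_filter] at hh
    rw [Finset.mem_Ico]
    exact hh.2
  · intro a _ b _ h
    exact Fin.ext h
  · intro h hh
    rw [Finset.mem_Ico] at hh
    exact ⟨⟨h, by omega⟩, by rw [Finset.mem_filter]; exact ⟨Finset.mem_univ _, hh⟩, rfl⟩
  · intro h _
    rw [uu, dif_pos h.2]

theorem phiP_eq (φ : FacetData (Net.gen (L ++ A ++ R ++ [ρ]) (d + r)).flat
    (Net.tsum SA SB q).flat) (I : Finset ℕ) :
    φ.P I = Pg (L ++ A ++ R ++ [ρ]) (d + r) (fun i => φ.psi (Sum.inl i)) (uu φ) I := by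
  rw [phi_P_eq, Pg]
  show _ * eval₂ _ _ (Net.Δ (Net.gen (L ++ A ++ R ++ [ρ]) (d + r)) I) = _
  rw [Net.Δ]
  by_cases hI : I ∈ (L ++ A ++ R ++ [ρ]).toFinset.powersetCard (d + r)
  · have hI' : I ∈ (Net.gen (L ++ A ++ R ++ [ρ]) (d + r)).M := hI
    rw [if_pos hI, if_pos hI', ← coe_eval₂Hom, map_prod]
    congr 1
    apply Finset.prod_congr rfl
    intro p hp
    rw [coe_eval₂Hom]
    apply evD
    rw [Net.prs, Finset.mem_filter, Finset.mem_product, Finset.mem_range, Finset.mem_range] at hp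
    omega
  · have hI' : I ∉ (Net.gen (L ++ A ++ R ++ [ρ]) (d + r)).M := hI
    rw [if_neg hI, if_neg hI', eval₂_zero, mul_zero]

/-- the bases of the facet -/
theorem facet_M (hf : GenFac L A R ρ q d r SA SB gA gB) :
    (Net.tsum SA SB q).M = MAd (L ++ A ++ R ++ [ρ]) A.toFinset (d + r) d := by
  have hq := hf.hq
  have hnd := hf.valid.1
  obtain ⟨a1, a2, a3, a4⟩ := isVtx_facts hf.hA
  obtain ⟨b1, b2, b3, b4⟩ := isVtx_facts hf.hB
  have mA := hf.vA.2.1
  have mB := hf.vB.2.1
  have hqA : q ∉ A := fun h => hq (by simp [h])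
  have hqL : q ∉ L := fun h => hq (by simp [h])
  have hqR : q ∉ R := fun h => hq (by simp [h])
  have hqρ : q ≠ ρ := fun h => hq (by simp [h])
  have hdisj : ∀ x ∈ A, x ∉ L ∧ x ∉ R ∧ x ≠ ρ := by
    intro x hx
    refine ⟨fun h => ?_, fun h => ?_, fun h => ?_⟩
    · simp only [List.nodup_append, List.mem_append] at hnd
      exact hnd.1.1.2.2 x h x hx rfl
    · simp only [List.nodup_append, List.mem_append] at hnd
      exact hnd.1.2.2 x (Or.inr hx) x h rfl
    · simp only [List.nodup_append, List.mem_append] at hnd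
      exact hnd.2.2 x (Or.inl (Or.inr hx)) ρ (by simp) h
  ext I
  rw [tsum_M, MAd, Finset.mem_filter, Finset.mem_powersetCard]
  constructor
  · rintro ⟨J, hJ, K, hK, hX, rfl⟩
    rw [mA, Finset.mem_powersetCard] at hJ
    rw [mB, Finset.mem_powersetCard] at hK
    obtain ⟨hJ1, hJ2⟩ := hJ
    obtain ⟨hK1, hK2⟩ := hK
    have hJs : ∀ x ∈ J, x ∈ A ∨ x = q := by
      intro x hx
      have := hJ1 hx
      simp only [List.mem_toFinset, List.mem_append, List.mem_singleton] at this
      exact this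
    have hKs : ∀ x ∈ K, x ∈ L ∨ x = q ∨ x ∈ R ∨ x = ρ := by
      intro x hx
      have := hK1 hx
      simp only [List.mem_toFinset, List.mem_append, List.mem_singleton] at this
      tauto
    have hd : Disjoint (J.erase q) (K.erase q) := by
      rw [Finset.disjoint_left]
      intro x hx hx'
      rw [Finset.mem_erase] at hx hx'
      have h1 := (hJs x hx.2).resolve_right hx.1
      obtain ⟨h2, h3, h4⟩ := hdisj x h1
      rcases hKs x hx'.2 with h | h | h | h
      · exact h2 h
      · exact hx.1 h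
      · exact h3 h
      · exact h4 h
    have e0 : (J ∪ K).erase q = J.erase q ∪ K.erase q := Finset.erase_union_distrib _ _ _
    have eA : (J ∪ K).erase q ∩ A.toFinset = J.erase q := by
      ext x
      simp only [Finset.mem_inter, Finset.mem_erase, Finset.mem_union, List.mem_toFinset]
      constructor
      · rintro ⟨⟨h1, h2 | h2⟩, h3⟩
        · exact ⟨h1, h2⟩
        · obtain ⟨h4, h5, h6⟩ := hdisj x h3
          rcases hKs x h2 with h | h | h | h
          · exact absurd h h4
          · exact absurd h h1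
          · exact absurd h h5
          · exact absurd h h6
      · rintro ⟨h1, h2⟩
        exact ⟨⟨h1, Or.inl h2⟩, (hJs x h2).resolve_right h1⟩
    refine ⟨⟨?_, ?_⟩, ?_⟩
    · intro x hx
      simp only [Finset.mem_erase, Finset.mem_union] at hx
      simp only [List.mem_toFinset, List.mem_append, List.mem_singleton]
      rcases hx.2 with h | h
      · rcases hJs x h with h | h
        · tauto
        · exact absurd h hx.1
      · rcases hKs x h with h | h | h | h
        · tauto
        · exact absurd h hx.1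
        · tauto
        · tauto
    · rw [e0, Finset.card_union_of_disjoint hd]
      rcases hX with ⟨h1, h2⟩ | ⟨h1, h2⟩
      · rw [Finset.card_erase_of_mem h1, Finset.erase_eq_of_notMem h2]; omega
      · rw [Finset.card_erase_of_mem h2, Finset.erase_eq_of_notMem h1]; omega
    · rw [eA]
      rcases hX with ⟨h1, h2⟩ | ⟨h1, h2⟩
      · left; rw [Finset.card_erase_of_mem h1]; omega
      · right; rw [Finset.erase_eq_of_notMem h1]; omega
  · rintro ⟨⟨hI1, hI2⟩, hI3⟩
    have hIs : ∀ x ∈ I, x ∈ A ∨ x ∈ L ∨ x ∈ R ∨ x = ρ := by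
      intro x hx
      have := hI1 hx
      simp only [List.mem_toFinset, List.mem_append, List.mem_singleton] at this
      tauto
    have hqI : q ∉ I := fun h => by
      rcases hIs q h with h | h | h | h
      · exact hqA h
      · exact hqL h
      · exact hqR h
      · exact hqρ h
    have hc : (I ∩ A.toFinset).card + (I \ A.toFinset).card = d + r := by
      rw [Finset.card_inter_add_card_sdiff, hI2]
    have hs1 : ∀ x ∈ I ∩ A.toFinset, x ∈ (A ++ [q]).toFinset := by
      intro x hx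
      simp only [Finset.mem_inter, List.mem_toFinset] at hx
      simp [hx.2]
    have hs2 : ∀ x ∈ I \ A.toFinset, x ∈ (L ++ [q] ++ R ++ [ρ]).toFinset := by
      intro x hx
      simp only [Finset.mem_sdiff, List.mem_toFinset] at hx
      simp only [List.mem_toFinset, List.mem_append, List.mem_singleton]
      rcases hIs x hx.1 with h | h | h | h
      · exact absurd h hx.2
      · exact Or.inl (Or.inl (Or.inl h))
      · exact Or.inl (Or.inr h)
      · exact Or.inr h
    have hq1 : q ∈ (A ++ [q]).toFinset := by simp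
    have hq2 : q ∈ (L ++ [q] ++ R ++ [ρ]).toFinset := by simp
    have n1 : q ∉ I ∩ A.toFinset := fun h => hqI (Finset.mem_inter.mp h).1
    have n2 : q ∉ I \ A.toFinset := fun h => hqI (Finset.mem_sdiff.mp h).1
    rcases hI3 with h | h
    · refine ⟨insert q (I ∩ A.toFinset), ?_, I \ A.toFinset, ?_, Or.inl ⟨by simp, n2⟩, ?_⟩
      · rw [mA, Finset.mem_powersetCard]
        refine ⟨Finset.insert_subset hq1 hs1, ?_⟩
        rw [Finset.card_insert_of_notMem n1, h]
      · rw [mB, Finset.mem_powersetCard]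
        exact ⟨hs2, by omega⟩
      · rw [Finset.insert_union, Finset.erase_insert_eq_erase, Finset.erase_eq_of_notMem]
        · rw [Finset.union_comm, Finset.sdiff_union_inter]
        · rw [Finset.mem_union]
          exact fun h => h.elim n1 n2
    · refine ⟨I ∩ A.toFinset, ?_, insert q (I \ A.toFinset), ?_, Or.inr ⟨n1, by simp⟩, ?_⟩
      · rw [mA, Finset.mem_powersetCard]
        exact ⟨hs1, h⟩
      · rw [mB, Finset.mem_powersetCard]
        refine ⟨Finset.insert_subset hq2 hs2, ?_⟩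
        rw [Finset.card_insert_of_notMem n2]; omega
      · rw [Finset.union_insert, Finset.erase_insert_eq_erase, Finset.erase_eq_of_notMem]
        · rw [Finset.union_comm, Finset.sdiff_union_inter]
        · rw [Finset.mem_union]
          exact fun h => h.elim n1 n2

/-! ### the values of the substitution -/

theorem uu_L (h : ℕ) (hh : h < L.length) (hl : h < (L ++ A ++ R ++ [ρ]).length - 2) :
    uu (genFD L A R ρ q d r SA SB gA gB) h = RatFunc.C (gvR SA SB q (gB h)) := by
  rw [uu, dif_pos hl, FacetData.psi]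
  have h1 : ¬ (L.length ≤ h ∧ h + 1 < L.length + A.length) := by omega
  simp only [genFD, if_neg h1, if_pos hh, zpow_zero, one_mul]

theorem uu_A (h : ℕ) (h1 : L.length ≤ h) (h2 : h + 1 < L.length + A.length)
    (hl : h < (L ++ A ++ R ++ [ρ]).length - 2) :
    uu (genFD L A R ρ q d r SA SB gA gB) h =
      sVar _ * RatFunc.C (gvL SA SB q (gA (h - L.length))) := by
  rw [uu, dif_pos hl, FacetData.psi]
  have h3 : ¬ (h < L.length) := by omega
  simp only [genFD, if_pos (And.intro h1 h2), if_neg h3, if_pos h2, zpow_one]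

theorem uu_R (h : ℕ) (h1 : L.length + A.length ≤ h + 1) (h0 : L.length ≤ h)
    (hl : h < (L ++ A ++ R ++ [ρ]).length - 2) :
    uu (genFD L A R ρ q d r SA SB gA gB) h =
      RatFunc.C (gvR SA SB q (gB (h + 1 - A.length))) := by
  rw [uu, dif_pos hl, FacetData.psi]
  have h3 : ¬ (h < L.length) := by omega
  have h4 : ¬ (h + 1 < L.length + A.length) := by omega
  have h5 : ¬ (L.length ≤ h ∧ h + 1 < L.length + A.length) := by omega
  simp only [genFD, if_neg h3, if_neg h4, if_neg h5, zpow_zero, one_mul]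

theorem gvR_sum (a b : ℕ) : gvR SA SB q (∑ h ∈ Finset.Ico a b, gB h) =
    ∑ h ∈ Finset.Ico a b, gvR SA SB q (gB h) := by
  unfold gvR
  rw [eval₂_sum]

/-! ### classes -/

theorem uu_pos (φ : FacetData (Net.gen (L ++ A ++ R ++ [ρ]) (d + r)).flat
    (Net.tsum SA SB q).flat) (hw : ∀ v, (Net.tsum SA SB q).flat.Pos (φ.w v)) (h : ℕ) :
    PosR (uu φ h) := by
  rw [uu]
  split_ifs with hh
  · exact psi_pos φ hw _
  · exact PosR.one

theorem Dsum_pos (φ : FacetData (Net.gen (L ++ A ++ R ++ [ρ]) (d + r)).flat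
    (Net.tsum SA SB q).flat) (hw : ∀ v, (Net.tsum SA SB q).flat.Pos (φ.w v)) (a b : ℕ)
    (hab : a < b) : PosR (∑ h ∈ Finset.Ico a b, uu φ h) :=
  PosR.sum _ (by simpa using hab) _ fun h _ => uu_pos φ hw h

theorem len_eq : (L ++ A ++ R ++ [ρ]).length = L.length + A.length + R.length + 1 := by
  simp only [List.length_append, List.length_singleton]

/-- all differences inside `A` are equivalent, all other differences are equivalent -/
theorem classes (hQ : HquoStmt) (h0 : Cg0Stmt) (hf : GenFac L A R ρ q d r SA SB gA gB) :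
    (∀ a b, L.length ≤ a → a < b → b < L.length + A.length →
      Eqv (Net.tsum SA SB q).M (genFD L A R ρ q d r SA SB gA gB).P
        (∑ h ∈ Finset.Ico a b, uu (genFD L A R ρ q d r SA SB gA gB) h)
        (uu (genFD L A R ρ q d r SA SB gA gB) L.length)) ∧
    (∀ a b, a < b → b < L.length + A.length + R.length →
      (a < L.length ∨ L.length + A.length ≤ b) →
      Eqv (Net.tsum SA SB q).M (genFD L A R ρ q d r SA SB gA gB).P
        (∑ h ∈ Finset.Ico a b, uu (genFD L A R ρ q d r SA SB gA gB) h)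
        (∑ h ∈ Finset.Ico 0 (L.length + A.length + R.length - 1),
          uu (genFD L A R ρ q d r SA SB gA gB) h)) := by
  obtain ⟨a1, a2, a3, a4⟩ := isVtx_facts hf.hA
  obtain ⟨b1, b2, b3, b4⟩ := isVtx_facts hf.hB
  have lA : (A ++ [q]).length = A.length + 1 := by simp
  have lB : (L ++ [q] ++ R ++ [ρ]).length = L.length + R.length + 2 := by
    simp only [List.length_append, List.length_singleton]; omega
  have ll := len_eq (L := L) (A := A) (R := R) (ρ := ρ)
  obtain ⟨hw, -, -, hM⟩ := h0 L A R ρ q d r SA SB gA gB hf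
  have v := hf.valid
  obtain ⟨v1, v2, v3⟩ := v
  have hne : ∀ a b, a < b → b + 1 < (L ++ A ++ R ++ [ρ]).length →
      ∑ h ∈ Finset.Ico a b, uu (genFD L A R ρ q d r SA SB gA gB) h ≠ 0 :=
    fun a b hab _ => (Dsum_pos _ hw a b hab).ne_zero
  have key := hQ (RatFunc (Net.tsum SA SB q).flat.F) (L ++ A ++ R ++ [ρ]) (d + r) d L.length
    (L.length + A.length) (fun i => (genFD L A R ρ q d r SA SB gA gB).psi (Sum.inl i))
    (uu (genFD L A R ρ q d r SA SB gA gB)) v1 v2 v3 (by omega) (by omega) (by omega) (by omega)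
    (by omega) (by omega) (by omega) (by omega) (fun i => (psi_pos _ hw _).ne_zero) hne
  have e1 : ((List.drop L.length (L ++ A ++ R ++ [ρ])).take (L.length + A.length - L.length)) =
      A := by
    have : L.length + A.length - L.length = A.length := by omega
    rw [this, List.append_assoc, List.append_assoc, List.drop_left, List.take_left]
  have e2 : Mon (MAd (L ++ A ++ R ++ [ρ]) A.toFinset (d + r) d)
      (Pg (L ++ A ++ R ++ [ρ]) (d + r)
        (fun i => (genFD L A R ρ q d r SA SB gA gB).psi (Sum.inl i))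
        (uu (genFD L A R ρ q d r SA SB gA gB))) =
      Mon (Net.tsum SA SB q).M (genFD L A R ρ q d r SA SB gA gB).P := by
    rw [facet_M hf]
    exact mon_congr fun I _ => (phiP_eq _ I).symm
  rw [e1, e2] at key
  obtain ⟨k1, k2⟩ := key
  constructor
  · intro a b h1 h2 h3
    have e3 : uu (genFD L A R ρ q d r SA SB gA gB) L.length =
        ∑ h ∈ Finset.Ico L.length (L.length + 1), uu (genFD L A R ρ q d r SA SB gA gB) h := by
      simp
    rw [e3]
    apply Eqv.of_div (hne _ _ (by omega) (by omega))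
    exact k1 a b L.length (L.length + 1) h1 h2 h3 le_rfl (by omega) (by omega)
  · intro a b h1 h2 h3
    apply Eqv.of_div (hne _ _ (by omega) (by omega))
    exact k2 a b 0 (L.length + A.length + R.length - 1) h1 (by omega) (by omega) (by omega) h3
      (by omega)

/-- the substitution on the labels -/
theorem psi_label (hQ : HquoStmt) (h0 : Cg0Stmt) (hf : GenFac L A R ρ q d r SA SB gA gB)
    (i : ℕ) (hi : i ∈ L ++ A ++ R ++ [ρ]) :
    Eqv (Net.tsum SA SB q).M (genFD L A R ρ q d r SA SB gA gB).P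
      (RatFunc.C (xx (Sum.inl i)) / (genFD L A R ρ q d r SA SB gA gB).psi (Sum.inl i))
      (if i ∈ A then sVar _ ^ d else if i = ρ then 1 else
        (∑ h ∈ Finset.Ico 0 (L.length + A.length + R.length - 1),
          uu (genFD L A R ρ q d r SA SB gA gB) h) ^ d) := by
  obtain ⟨c1, c2⟩ := classes hQ h0 hf
  obtain ⟨a1, a2, a3, a4⟩ := isVtx_facts hf.hA
  have lA : (A ++ [q]).length = A.length + 1 := by simp
  have ll := len_eq (L := L) (A := A) (R := R) (ρ := ρ)
  obtain ⟨hw, -, -, hM⟩ := h0 L A R ρ q d r SA SB gA gB hf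
  have hnd := hf.valid.1
  have hp : ∀ I ∈ (Net.tsum SA SB q).M, (genFD L A R ρ q d r SA SB gA gB).P I ≠ 0 := by
    intro I hI
    apply phi_P_ne_zero _ hw
    exact ((Net.wf' _ hf.valid).ne I).mpr (hM.1 hI)
  have hnd' := hnd
  simp only [List.nodup_append, List.mem_append, List.mem_singleton] at hnd'
  obtain ⟨⟨⟨n1, n2, n3⟩, n4, n5⟩, n6, n7⟩ := hnd'
  have hx : (RatFunc.C (xx (Sum.inl i)) : RatFunc (Net.tsum SA SB q).flat.F) ≠ 0 := by
    rw [Ne, map_eq_zero]; exact xx_ne_zero _
  by_cases iA : i ∈ A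
  · have iL : i ∉ L := fun h => n3 i h i iA rfl
    have iR : i ∉ R := fun h => n5 i (Or.inr iA) i h rfl
    rw [if_pos iA]
    apply Eqv.of_eq
    rw [FacetData.psi]
    simp only [genFD, if_pos iA, if_neg iL, if_neg iR, mul_one]
    rw [zpow_neg, zpow_natCast, flat_x]
    have hs : (sVar (Net.tsum SA SB q).flat.F) ≠ 0 := s_ne_zero
    field_simp
  rw [if_neg iA]
  by_cases iL : i ∈ L
  · have iρ : i ≠ ρ := n7 i (Or.inl (Or.inl iL)) ρ rfl
    rw [if_neg iρ]
    have hlt := List.idxOf_lt_length_of_mem iL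
    have e1 : RatFunc.C (xx (Sum.inl i)) / (genFD L A R ρ q d r SA SB gA gB).psi (Sum.inl i) =
        (∑ h ∈ Finset.Ico (L.idxOf i) L.length, uu (genFD L A R ρ q d r SA SB gA gB) h) ^ d := by
      have e2 : ∑ h ∈ Finset.Ico (L.idxOf i) L.length, uu (genFD L A R ρ q d r SA SB gA gB) h =
          RatFunc.C (gvR SA SB q (∑ h ∈ Finset.Ico (L.idxOf i) L.length, gB h)) := by
        rw [gvR_sum, map_sum]
        apply Finset.sum_congr rfl
        intro h hh
        rw [Finset.mem_Ico] at hh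
        exact uu_L h hh.2 (by omega)
      have e3 : RatFunc.C (gvR SA SB q (∑ h ∈ Finset.Ico (L.idxOf i) L.length, gB h)) ≠ 0 := by
        rw [← e2]
        exact (Dsum_pos _ hw _ _ hlt).ne_zero
      rw [e2, FacetData.psi]
      simp only [genFD, if_neg iA, if_pos iL, zpow_zero, one_mul, map_mul, map_inv₀, map_pow]
      rw [flat_x]
      field_simp
    rw [e1]
    exact (c2 _ _ hlt (by omega) (Or.inl hlt)).pow hp d
  by_cases iR : i ∈ R
  · have iρ : i ≠ ρ := n7 i (Or.inr iR) ρ rfl
    rw [if_neg iρ]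
    have hlt := List.idxOf_lt_length_of_mem iR
    have e1 : RatFunc.C (xx (Sum.inl i)) / (genFD L A R ρ q d r SA SB gA gB).psi (Sum.inl i) =
        (∑ h ∈ Finset.Ico (L.length + A.length - 1) (L.length + A.length + R.idxOf i),
          uu (genFD L A R ρ q d r SA SB gA gB) h) ^ d := by
      have e2 : ∑ h ∈ Finset.Ico (L.length + A.length - 1) (L.length + A.length + R.idxOf i),
          uu (genFD L A R ρ q d r SA SB gA gB) h =
          RatFunc.C (gvR SA SB q (∑ h ∈ Finset.Ico L.length (L.length + 1 + R.idxOf i), gB h)) := by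
        rw [gvR_sum, map_sum]
        refine Finset.sum_nbij' (fun h => h + 1 - A.length) (fun h => h + A.length - 1) ?_ ?_ ?_ ?_ ?_
        · intro h hh
          rw [Finset.mem_Ico] at hh ⊢
          omega
        · intro h hh
          rw [Finset.mem_Ico] at hh ⊢
          omega
        · intro h hh
          rw [Finset.mem_Ico] at hh
          show h + 1 - A.length + A.length - 1 = h
          omega
        · intro h hh
          rw [Finset.mem_Ico] at hh
          show h + A.length - 1 + 1 - A.length = h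
          omega
        · intro h hh
          rw [Finset.mem_Ico] at hh
          exact uu_R h (by omega) (by omega) (by omega)
      have e3 : RatFunc.C (gvR SA SB q
          (∑ h ∈ Finset.Ico L.length (L.length + 1 + R.idxOf i), gB h)) ≠ 0 := by
        rw [← e2]
        exact (Dsum_pos _ hw _ _ (by omega)).ne_zero
      rw [e2, FacetData.psi]
      simp only [genFD, if_neg iA, if_neg iL, if_pos iR, zpow_zero, one_mul, map_mul, map_inv₀,
        map_pow]
      rw [flat_x]
      field_simp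
    rw [e1]
    exact (c2 _ _ (by omega) (by omega) (Or.inr (by omega))).pow hp d
  · have iρ : i = ρ := by
      simp only [List.mem_append, List.mem_singleton] at hi
      tauto
    rw [if_pos iρ]
    apply Eqv.of_eq
    rw [FacetData.psi]
    simp only [genFD, if_neg iA, if_neg iL, if_neg iR, mul_one, zpow_zero, one_mul]
    rw [flat_x]
    exact div_self hx

/-- counting the inside pairs -/
theorem card_inside (I : Finset ℕ) :
    2 * ((Net.prs (L ++ A ++ R ++ [ρ]) I).filter
      (fun p => L.length ≤ p.1 ∧ p.2 < L.length + A.length)).card + A.countP (· ∈ I) =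
      A.countP (· ∈ I) * A.countP (· ∈ I) := by
  have h1 : (Net.prs (L ++ A ++ R ++ [ρ]) I).filter
      (fun p => L.length ≤ p.1 ∧ p.2 < L.length + A.length) =
      prP ((pos (L ++ A ++ R ++ [ρ]) I).filter
        (fun x => L.length ≤ x ∧ x < L.length + A.length)) := by
    ext ⟨x, y⟩
    rw [prs_eq]
    simp only [prP, Finset.mem_filter, Finset.mem_product]
    constructor
    · rintro ⟨⟨⟨h1, h2⟩, h3⟩, h4, h5⟩
      exact ⟨⟨⟨h1, by omega⟩, ⟨h2, by omega⟩⟩, h3⟩
    · rintro ⟨⟨⟨h1, h2⟩, ⟨h3, h4⟩⟩, h5⟩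
      exact ⟨⟨⟨h1, h3⟩, h5⟩, h2.1, h4.2⟩
  have h2 : ((pos (L ++ A ++ R ++ [ρ]) I).filter
        (fun x => L.length ≤ x ∧ x < L.length + A.length)).card = A.countP (· ∈ I) := by
    rw [← card_pos_aux (R ++ [ρ]) I A]
    symm
    have hget : ∀ x, x < A.length → (L ++ A ++ R ++ [ρ]).getD (x + L.length) 0 =
        (A ++ (R ++ [ρ])).getD x 0 := by
      intro x hx
      rw [List.append_assoc, List.append_assoc, List.getD_append_right _ _ _ _ (by omega),
        Nat.add_sub_cancel]
    apply Finset.card_bij (fun x _ => x + L.length)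
    · intro x hx
      rw [Finset.mem_filter, Finset.mem_range] at hx
      rw [Finset.mem_filter, pos, Finset.mem_filter, Finset.mem_range, len_eq,
        hget x hx.1]
      exact ⟨⟨by omega, hx.2⟩, by omega, by omega⟩
    · intro a _ b _ h
      omega
    · intro y hy
      rw [Finset.mem_filter, pos, Finset.mem_filter, Finset.mem_range] at hy
      refine ⟨y - L.length, ?_, by omega⟩
      rw [Finset.mem_filter, Finset.mem_range]
      refine ⟨by omega, ?_⟩
      rw [← hget _ (by omega), Nat.sub_add_cancel hy.2.1]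
      exact hy.1.2
  rw [h1, ← h2]
  exact card_prP _

/-- the final cancellation -/
theorem cancel {K : Type*} [Field K] (s ι o : K) (hs : s ≠ 0) (hι : ι ≠ 0) (ho : o ≠ 0)
    (a b δ Na Na' Nb No T : ℕ) (hδ : δ = 0 ∨ δ = 1) (ha : a = d + δ)
    (h1 : 2 * Na + a = a * a) (h2 : 2 * Na' + a = a * a)
    (h3 : 2 * Nb + (b + δ) = (b + δ) * (b + δ))
    (h4 : 2 * (Na' + No) + (a + b) = (a + b) * (a + b)) (hT : 2 * T = d * (d + 1)) :
    (s ^ d) ^ a * (o ^ d) ^ b * (s⁻¹ * ι) ^ Na * o ^ Nb * s ^ (-(T : ℤ)) /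
      (ι ^ Na' * o ^ No) = 1 := by
  have e1 : Na = Na' := by omega
  subst e1
  have e2 : d * a = Na + T := by
    rcases hδ with rfl | rfl
    · rw [add_zero] at ha; subst ha; nlinarith
    · subst ha; nlinarith
  have e3 : d * b + Nb = No := by
    rcases hδ with rfl | rfl
    · rw [add_zero] at ha; subst ha; nlinarith
    · subst ha; nlinarith
  rw [← pow_mul, ← pow_mul, e2, ← e3, pow_add, pow_add, mul_pow, zpow_neg, zpow_natCast, inv_pow]
  field_simp

end

theorem prod_split {K' : Type*} [CommMonoid K'] (f : ℕ → K') (J K : Finset ℕ) (q : ℕ)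
    (hX : Xq q J K) (hd : Disjoint (J.erase q) (K.erase q)) :
    (∏ i ∈ J, f i) * (∏ i ∈ K, f i) = (∏ i ∈ (J ∪ K).erase q, f i) * f q := by
  rw [Finset.erase_union_distrib, Finset.prod_union hd]
  rcases hX with ⟨h1, h2⟩ | ⟨h1, h2⟩
  · rw [← Finset.prod_erase_mul J f h1, Finset.erase_eq_of_notMem h2]
    exact mul_right_comm _ _ _
  · rw [← Finset.prod_erase_mul K f h2, Finset.erase_eq_of_notMem h1, mul_assoc]

/-- CG3 -/
theorem cg3' (hQ : HquoStmt) (h0 : Cg0Stmt)
    (hVal : ∀ (L A R : List ℕ) (ρ q d r : ℕ) (SA SB : Net)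
      (gA : ℕ → MvPolynomial SA.G ℕ) (gB : ℕ → MvPolynomial SB.G ℕ),
      GenFac L A R ρ q d r SA SB gA gB → (Net.tsum SA SB q).Valid) : Cg3Stmt := by
  intro L A R ρ q d r SA SB gA gB hf I hI μ hμ
  obtain ⟨c1, c2⟩ := classes hQ h0 hf
  obtain ⟨a1, a2, a3, a4⟩ := isVtx_facts hf.hA
  obtain ⟨b1, b2, b3, b4⟩ := isVtx_facts hf.hB
  have lA : (A ++ [q]).length = A.length + 1 := by simp
  have lB : (L ++ [q] ++ R ++ [ρ]).length = L.length + R.length + 2 := by
    simp only [List.length_append, List.length_singleton]; omega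
  have ll := len_eq (L := L) (A := A) (R := R) (ρ := ρ)
  obtain ⟨hw, -, -, hM⟩ := h0 L A R ρ q d r SA SB gA gB hf
  have hp : ∀ I ∈ (Net.tsum SA SB q).M, (genFD L A R ρ q d r SA SB gA gB).P I ≠ 0 := by
    intro I hI
    apply phi_P_ne_zero _ hw
    exact ((Net.wf' _ hf.valid).ne I).mpr (hM.1 hI)
  have hq := hf.hq
  have hnd := hf.valid.1
  have hqA : q ∉ A := fun h => hq (by simp [h])
  have hqL : q ∉ L := fun h => hq (by simp [h])
  have hqR : q ∉ R := fun h => hq (by simp [h])
  have hqρ : q ≠ ρ := fun h => hq (by simp [h])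
  have hnd' := hnd
  simp only [List.nodup_append, List.mem_append, List.mem_singleton] at hnd'
  obtain ⟨⟨⟨n1, n2, n3⟩, n4, n5⟩, n6, n7⟩ := hnd'
  -- the facet is valid
  have hVt : (Net.tsum SA SB q).Valid := hVal L A R ρ q d r SA SB gA gB hf
  obtain ⟨J, hJ, K, hK, hX, rfl⟩ := (tsum_M I).mp hI
  obtain ⟨a, ha, b, hb, hab⟩ := (tsum_exp hVt J K hJ hK hX μ).mp hμ
  have hJ' := hJ
  have hK' := hK
  rw [hf.vA.2.1, Finset.mem_powersetCard] at hJ'
  rw [hf.vB.2.1, Finset.mem_powersetCard] at hK'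
  obtain ⟨hJ1, hJ2⟩ := hJ'
  obtain ⟨hK1, hK2⟩ := hK'
  have hJs : ∀ x ∈ J, x ∈ A ∨ x = q := by
    intro x hx
    have := hJ1 hx
    simp only [List.mem_toFinset, List.mem_append, List.mem_singleton] at this
    exact this
  have hKs : ∀ x ∈ K, x ∈ L ∨ x = q ∨ x ∈ R ∨ x = ρ := by
    intro x hx
    have := hK1 hx
    simp only [List.mem_toFinset, List.mem_append, List.mem_singleton] at this
    tauto
  have hAK : ∀ x ∈ A, x ∉ K := by
    intro x hx hx'
    rcases hKs x hx' with h | h | h | h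
    · exact n3 x h x hx rfl
    · exact hqA (h ▸ hx)
    · exact n5 x (Or.inr hx) x h rfl
    · exact n7 x (Or.inl (Or.inr hx)) ρ rfl h
  have hd : Disjoint (J.erase q) (K.erase q) := by
    rw [Finset.disjoint_left]
    intro x hx hx'
    rw [Finset.mem_erase] at hx hx'
    exact hAK x ((hJs x hx.2).resolve_right hx.1) hx'.2
  -- the monomial
  obtain ⟨cA, hcA, hcA'⟩ := vtx_mono hf.vA (fun v => xx (vtL SA SB q v)) J
    (a.prod fun v n => xx (vtL SA SB q v) ^ n) ⟨a, ha, rfl⟩
  obtain ⟨cB, hcB, hcB'⟩ := vtx_mono hf.vB (fun v => xx (vtR SA SB q v)) K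
    (b.prod fun v n => xx (vtR SA SB q v) ^ n) ⟨b, hb, rfl⟩
  have hmono : (Net.tsum SA SB q).flat.mono (zexp μ) =
      (∏ i ∈ (J ∪ K).erase q, xx (Sum.inl i)) * (∏ p ∈ Net.prs (A ++ [q]) J, cA p) *
        ∏ p ∈ Net.prs (L ++ [q] ++ R ++ [ρ]) K, cB p := by
    have e1 : (μ + Finsupp.single (Sum.inl q) 1).prod
        (fun v n => (xx v : (Net.tsum SA SB q).flat.F) ^ n) =
        (Net.tsum SA SB q).flat.mono (zexp μ) * xx (Sum.inl q) := by
      rw [Finsupp.prod_add_index' (fun _ => pow_zero _) (fun _ _ _ => pow_add _ _ _),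
        Finsupp.prod_single_index (h := fun v n => (xx v : (Net.tsum SA SB q).flat.F) ^ n)
          (pow_zero _), pow_one, mono_eq, lmono_zexp]
    rw [hab, Finsupp.prod_add_index' (fun _ => pow_zero _) (fun _ _ _ => pow_add _ _ _),
      Finsupp.prod_mapDomain_index (fun _ => pow_zero _) (fun _ _ _ => pow_add _ _ _),
      Finsupp.prod_mapDomain_index (fun _ => pow_zero _) (fun _ _ _ => pow_add _ _ _),
      hcA', hcB'] at e1
    have e2 := prod_split (fun i => (xx (Sum.inl i) : (Net.tsum SA SB q).flat.F)) J K q hX hd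
    apply mul_right_cancel₀ (xx_ne_zero (Sum.inl q) : (xx (Sum.inl q) :
      (Net.tsum SA SB q).flat.F) ≠ 0)
    rw [← e1]
    have e3 : (∏ i ∈ J, (xx (vtL SA SB q (Sum.inl i)) : (Net.tsum SA SB q).flat.F)) =
        ∏ i ∈ J, xx (Sum.inl i) := rfl
    have e4 : (∏ i ∈ K, (xx (vtR SA SB q (Sum.inl i)) : (Net.tsum SA SB q).flat.F)) =
        ∏ i ∈ K, xx (Sum.inl i) := rfl
    rw [e3, e4]
    linear_combination (∏ p ∈ Net.prs (A ++ [q]) J, cA p) *
      (∏ p ∈ Net.prs (L ++ [q] ++ R ++ [ρ]) K, cB p) * e2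
  -- the classes
  have E1 : Eqv (Net.tsum SA SB q).M (genFD L A R ρ q d r SA SB gA gB).P
      (∏ i ∈ (J ∪ K).erase q, (RatFunc.C (xx (Sum.inl i)) /
        (genFD L A R ρ q d r SA SB gA gB).psi (Sum.inl i)))
      (∏ i ∈ (J ∪ K).erase q, (if i ∈ A then sVar _ ^ d else if i = ρ then 1 else
        (∑ h ∈ Finset.Ico 0 (L.length + A.length + R.length - 1),
          uu (genFD L A R ρ q d r SA SB gA gB) h) ^ d)) := by
    apply Eqv.prod hp
    intro i hi
    apply psi_label hQ h0 hf
    rw [Finset.mem_erase, Finset.mem_union] at hi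
    simp only [List.mem_append, List.mem_singleton]
    rcases hi.2 with h | h
    · exact Or.inl (Or.inl (Or.inr ((hJs i h).resolve_right hi.1)))
    · rcases hKs i h with h | h | h | h
      · exact Or.inl (Or.inl (Or.inl h))
      · exact absurd h hi.1
      · exact Or.inl (Or.inr h)
      · exact Or.inr h
  have E2 : Eqv (Net.tsum SA SB q).M (genFD L A R ρ q d r SA SB gA gB).P
      (∏ p ∈ Net.prs (A ++ [q]) J, RatFunc.C (cA p))
      (∏ p ∈ Net.prs (A ++ [q]) J, ((sVar _)⁻¹ *
        uu (genFD L A R ρ q d r SA SB gA gB) L.length)) := by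
    apply Eqv.prod hp
    intro p hp'
    obtain ⟨k, hk, e⟩ := hcA p hp'
    rw [Net.prs, Finset.mem_filter, Finset.mem_product, Finset.mem_range, Finset.mem_range] at hp'
    rw [Finset.mem_Ico] at hk
    have e1 : RatFunc.C (cA p) = (sVar _)⁻¹ *
        ∑ h ∈ Finset.Ico (L.length + k) (L.length + k + 1),
          uu (genFD L A R ρ q d r SA SB gA gB) h := by
      rw [Nat.Ico_succ_singleton, Finset.sum_singleton,
        uu_A (L.length + k) (by omega) (by omega) (by omega), Nat.add_sub_cancel_left,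
        inv_mul_cancel_left₀ s_ne_zero, e]
      rfl
    rw [e1]
    exact (Eqv.refl _).mul hp (c1 _ _ (by omega) (by omega) (by omega))
  have E3 : Eqv (Net.tsum SA SB q).M (genFD L A R ρ q d r SA SB gA gB).P
      (∏ p ∈ Net.prs (L ++ [q] ++ R ++ [ρ]) K, RatFunc.C (cB p))
      (∏ p ∈ Net.prs (L ++ [q] ++ R ++ [ρ]) K,
        (∑ h ∈ Finset.Ico 0 (L.length + A.length + R.length - 1),
          uu (genFD L A R ρ q d r SA SB gA gB) h)) := by
    apply Eqv.prod hp
    intro p hp'
    obtain ⟨k, hk, e⟩ := hcB p hp'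
    rw [Net.prs, Finset.mem_filter, Finset.mem_product, Finset.mem_range, Finset.mem_range] at hp'
    rw [Finset.mem_Ico] at hk
    by_cases hkL : k < L.length
    · have e1 : RatFunc.C (cB p) = ∑ h ∈ Finset.Ico k (k + 1),
          uu (genFD L A R ρ q d r SA SB gA gB) h := by
        rw [Nat.Ico_succ_singleton, Finset.sum_singleton, uu_L k hkL (by omega), e]
        rfl
      rw [e1]
      exact c2 _ _ (by omega) (by omega) (Or.inl hkL)
    · have e1 : RatFunc.C (cB p) = ∑ h ∈ Finset.Ico (k + A.length - 1) (k + A.length - 1 + 1),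
          uu (genFD L A R ρ q d r SA SB gA gB) h := by
        rw [Nat.Ico_succ_singleton, Finset.sum_singleton,
          uu_R (k + A.length - 1) (by omega) (by omega) (by omega), e]
        have : k + A.length - 1 + 1 - A.length = k := by omega
        rw [this]
        rfl
      rw [e1]
      exact c2 _ _ (by omega) (by omega) (Or.inr (by omega))
  have E4 : Eqv (Net.tsum SA SB q).M (genFD L A R ρ q d r SA SB gA gB).P
      (∏ p ∈ Net.prs (L ++ A ++ R ++ [ρ]) ((J ∪ K).erase q),
        ∑ h ∈ Finset.Ico p.1 p.2, uu (genFD L A R ρ q d r SA SB gA gB) h)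
      (∏ p ∈ Net.prs (L ++ A ++ R ++ [ρ]) ((J ∪ K).erase q),
        if L.length ≤ p.1 ∧ p.2 < L.length + A.length then
          uu (genFD L A R ρ q d r SA SB gA gB) L.length
        else ∑ h ∈ Finset.Ico 0 (L.length + A.length + R.length - 1),
          uu (genFD L A R ρ q d r SA SB gA gB) h) := by
    apply Eqv.prod hp
    intro p hp'
    rw [Net.prs, Finset.mem_filter, Finset.mem_product, Finset.mem_range, Finset.mem_range] at hp'
    split_ifs with hc
    · exact c1 _ _ hc.1 hp'.2.1 hc.2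
    · exact c2 _ _ hp'.2.1 (by omega) (by omega)
  -- the total
  have hIg : (J ∪ K).erase q ∈ (L ++ A ++ R ++ [ρ]).toFinset.powersetCard (d + r) := hM.1 hI
  have hPI : (genFD L A R ρ q d r SA SB gA gB).P ((J ∪ K).erase q) =
      (∏ i ∈ (J ∪ K).erase q, (genFD L A R ρ q d r SA SB gA gB).psi (Sum.inl i)) *
      ∏ p ∈ Net.prs (L ++ A ++ R ++ [ρ]) ((J ∪ K).erase q),
        ∑ h ∈ Finset.Ico p.1 p.2, uu (genFD L A R ρ q d r SA SB gA gB) h := by
    rw [phiP_eq, Pg, if_pos hIg]
  have htot : RatFunc.C ((Net.tsum SA SB q).flat.mono (zexp μ)) *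
        sVar (Net.tsum SA SB q).flat.F ^ (-((d * (d + 1) / 2 : ℕ) : ℤ)) /
        (genFD L A R ρ q d r SA SB gA gB).P ((J ∪ K).erase q) =
      (∏ i ∈ (J ∪ K).erase q, (RatFunc.C (xx (Sum.inl i)) /
        (genFD L A R ρ q d r SA SB gA gB).psi (Sum.inl i))) *
      (∏ p ∈ Net.prs (A ++ [q]) J, RatFunc.C (cA p)) *
      (∏ p ∈ Net.prs (L ++ [q] ++ R ++ [ρ]) K, RatFunc.C (cB p)) *
      sVar (Net.tsum SA SB q).flat.F ^ (-((d * (d + 1) / 2 : ℕ) : ℤ)) /
      (∏ p ∈ Net.prs (L ++ A ++ R ++ [ρ]) ((J ∪ K).erase q),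
        ∑ h ∈ Finset.Ico p.1 p.2, uu (genFD L A R ρ q d r SA SB gA gB) h) := by
    rw [hmono, hPI, map_mul, map_mul, map_prod, map_prod, map_prod, Finset.prod_div_distrib]
    rw [mul_assoc, mul_assoc, mul_assoc, mul_assoc, div_mul_eq_mul_div, div_div]
  rw [htot]
  apply Eqv.mem
  have E5 := ((((E1.mul hp E2).mul hp E3).mul hp (Eqv.refl (M := (Net.tsum SA SB q).M)
    (p := (genFD L A R ρ q d r SA SB gA gB).P)
    (sVar (Net.tsum SA SB q).flat.F ^ (-((d * (d + 1) / 2 : ℕ) : ℤ))))).div hp E4)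
  refine E5.trans hp (Eqv.of_eq ?_)
  -- counting
  have hsub : ∀ x ∈ (J ∪ K).erase q, x ∈ A ∨ x ∈ L ∨ x ∈ R ∨ x = ρ := by
    intro x hx
    rw [Finset.mem_erase, Finset.mem_union] at hx
    rcases hx.2 with h | h
    · exact Or.inl ((hJs x h).resolve_right hx.1)
    · rcases hKs x h with h | h | h | h
      · exact Or.inr (Or.inl h)
      · exact absurd h hx.1
      · exact Or.inr (Or.inr (Or.inl h))
      · exact Or.inr (Or.inr (Or.inr h))
  have k1 : A.countP (· ∈ J) = A.countP (· ∈ (J ∪ K).erase q) := by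
    apply List.countP_congr
    intro x hx
    have h1 : x ≠ q := fun h => hqA (h ▸ hx)
    have h2 := hAK x hx
    simp [h1, h2]
  have hAJ : ∀ x, x ∉ A → x ≠ q → x ∉ J := fun x h1 h2 h3 => (hJs x h3).elim h1 h2
  have k2 : L.countP (· ∈ K) = L.countP (· ∈ (J ∪ K).erase q) := by
    apply List.countP_congr
    intro x hx
    have h1 : x ≠ q := fun h => hqL (h ▸ hx)
    have h2 := hAJ x (fun h => n3 x hx x h rfl) h1
    simp [h1, h2]
  have k3 : R.countP (· ∈ K) = R.countP (· ∈ (J ∪ K).erase q) := by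
    apply List.countP_congr
    intro x hx
    have h1 : x ≠ q := fun h => hqR (h ▸ hx)
    have h2 := hAJ x (fun h => n5 x (Or.inr h) x hx rfl) h1
    simp [h1, h2]
  have p1 := card_pos A q J
  have p2 := card_pos (L ++ [q] ++ R) ρ K
  have p3 := card_pos (L ++ A ++ R) ρ ((J ∪ K).erase q)
  rw [List.countP_append, List.countP_append] at p2 p3
  have q1 := card_prP (pos (A ++ [q]) J)
  have q2 := card_prP (pos (L ++ [q] ++ R ++ [ρ]) K)
  have q3 := card_prP (pos (L ++ A ++ R ++ [ρ]) ((J ∪ K).erase q))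
  rw [← prs_eq] at q1 q2 q3
  rw [p1, k1] at q1
  rw [p2, k2, k3] at q2
  rw [p3] at q3
  have q4 := card_inside (L := L) (A := A) (R := R) (ρ := ρ) ((J ∪ K).erase q)
  have q5 := Finset.card_filter_add_card_filter_not (s := Net.prs (L ++ A ++ R ++ [ρ])
    ((J ∪ K).erase q)) (fun p => L.length ≤ p.1 ∧ p.2 < L.length + A.length)
  have m1 : (((J ∪ K).erase q).filter (fun i => i ∈ A)).card =
      A.countP (· ∈ (J ∪ K).erase q) := by
    rw [countP_inter A n2]
    congr 1
    ext x
    simp [and_assoc]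
  have m2 : ((((J ∪ K).erase q).filter (fun i => i ∉ A)).filter (fun i => ¬ i = ρ)).card =
      L.countP (· ∈ (J ∪ K).erase q) + R.countP (· ∈ (J ∪ K).erase q) := by
    have hLR : (L ++ R).Nodup := by
      rw [List.nodup_append]
      exact ⟨n1, n4, fun x hx y hy => n5 x (Or.inl hx) y hy⟩
    rw [← List.countP_append, countP_inter _ hLR]
    congr 1
    ext x
    simp only [Finset.mem_filter, Finset.mem_inter, List.mem_toFinset, List.mem_append]
    constructor
    · rintro ⟨⟨h1, h2⟩, h3⟩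
      refine ⟨h1, ?_⟩
      rcases hsub x h1 with h | h | h | h
      · exact absurd h h2
      · exact Or.inl h
      · exact Or.inr h
      · exact absurd h h3
    · rintro ⟨h1, h2 | h2⟩
      · exact ⟨⟨h1, fun h => n3 x h2 x h rfl⟩, fun h => n7 x (Or.inl (Or.inl h2)) ρ rfl h⟩
      · exact ⟨⟨h1, fun h => n5 x (Or.inr h) x h2 rfl⟩, fun h => n7 x (Or.inr h2) ρ rfl h⟩
  have m3 : A.countP (· ∈ (J ∪ K).erase q) = d + (if q ∈ K then 1 else 0) := by
    rw [← k1, countP_inter A n2]
    have : J ∩ A.toFinset = J.erase q := by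
      ext x
      simp only [Finset.mem_inter, List.mem_toFinset, Finset.mem_erase]
      constructor
      · rintro ⟨h1, h2⟩
        exact ⟨fun h => hqA (h ▸ h2), h1⟩
      · rintro ⟨h1, h2⟩
        exact ⟨h2, (hJs x h2).resolve_right h1⟩
    rw [this]
    rcases hX with ⟨h1, h2⟩ | ⟨h1, h2⟩
    · rw [if_neg h2, Finset.card_erase_of_mem h1]; omega
    · rw [if_pos h2, Finset.erase_eq_of_notMem h1]; omega
  have m4 : [q].countP (· ∈ K) = if q ∈ K then 1 else 0 := by
    rw [List.countP_singleton]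
    by_cases h : q ∈ K <;> simp [h]
  rw [m4] at q2
  have hT : 2 * (d * (d + 1) / 2) = d * (d + 1) :=
    Nat.mul_div_cancel' (Nat.even_mul_succ_self d).two_dvd
  rw [Finset.prod_ite, Finset.prod_const, Finset.prod_ite, Finset.prod_const_one, one_mul,
    Finset.prod_const, m1, m2, Finset.prod_const, Finset.prod_const, Finset.prod_ite,
    Finset.prod_const, Finset.prod_const]
  refine cancel _ _ _ s_ne_zero (uu_pos _ hw _).ne_zero (Dsum_pos _ hw _ _ (by omega)).ne_zero
    _ _ (if q ∈ K then 1 else 0) _ _ _ _ _ (by split_ifs <;> simp) m3 q1 q4 ?_ ?_ hT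
  · rw [add_right_comm] at q2
    exact q2
  · rw [q5]
    have : L.countP (· ∈ (J ∪ K).erase q) + A.countP (· ∈ (J ∪ K).erase q) +
        R.countP (· ∈ (J ∪ K).erase q) = A.countP (· ∈ (J ∪ K).erase q) +
        (L.countP (· ∈ (J ∪ K).erase q) + R.countP (· ∈ (J ∪ K).erase q)) := by ring
    rw [this] at q3
    exact q3

/-- CG3 -/
theorem cg3 (hF : FacetStmt) (hQ : HquoStmt) (h0 : Cg0Stmt) : Cg3Stmt :=
  cg3' hQ h0 fun L A R ρ q d r SA SB _ _ hf =>
    (hF _ _ hf.valid (Net.Facet.gen L A R ρ q d r SA SB hf.hq hf.hA hf.hB)).1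

end H74

end ABCT
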