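import Pool.Agent.Helper32_ABCT.Stmts2

/-!
# VUNI: positive points of the closure of a generic vertex are in the cell (MP_a17fcb_ag)
-/

open MvPolynomial

namespace ABCT

namespace H74

open FlatCell

section

variable (S : FlatCell) (z : Finset ℕ → ℝ)

/-- coordinates in the field -/
noncomputable def ah : MvPolynomial (Finset ℕ) ℂ →ₐ[ℂ] S.F := aeval S.P

/-- coordinates at the point -/
noncomputable def bh : MvPolynomial (Finset ℕ) ℂ →ₐ[ℂ] ℂ := aeval fun I => ((z I : ℝ) : ℂ)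

/-- `f` is regular at `z` with value `w` -/
def RV (f : S.F) (w : ℂ) : Prop :=
  ∃ a b : MvPolynomial (Finset ℕ) ℂ, bh z b ≠ 0 ∧ f * ah S b = ah S a ∧ w * bh z b = bh z a

variable {S z} (hk : ∀ f, ah S f = 0 → bh z f = 0)

include hk in
theorem RV.unique {f : S.F} {w w' : ℂ} (h : RV S z f w) (h' : RV S z f w') : w = w' := by
  obtain ⟨a, b, h1, h2, h3⟩ := h
  obtain ⟨a', b', h1', h2', h3'⟩ := h'
  have : ah S (a * b' - a' * b) = 0 := by
    rw [map_sub, map_mul, map_mul, ← h2, ← h2']; ring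
  have h4 := hk _ this
  rw [map_sub, map_mul, map_mul, ← h3, ← h3'] at h4
  have h5 : (w - w') * (bh z b * bh z b') = 0 := by linear_combination h4
  have h6 := (mul_eq_zero.mp h5).resolve_right (mul_ne_zero h1 h1')
  exact sub_eq_zero.mp h6

theorem RV.mul {f f' : S.F} {w w' : ℂ} (h : RV S z f w) (h' : RV S z f' w') :
    RV S z (f * f') (w * w') := by
  obtain ⟨a, b, h1, h2, h3⟩ := h
  obtain ⟨a', b', h1', h2', h3'⟩ := h'
  refine ⟨a * a', b * b', by rw [map_mul]; exact mul_ne_zero h1 h1', ?_, ?_⟩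
  · rw [map_mul, map_mul, ← h2, ← h2']; ring
  · rw [map_mul, map_mul, ← h3, ← h3']; ring

theorem RV.add {f f' : S.F} {w w' : ℂ} (h : RV S z f w) (h' : RV S z f' w') :
    RV S z (f + f') (w + w') := by
  obtain ⟨a, b, h1, h2, h3⟩ := h
  obtain ⟨a', b', h1', h2', h3'⟩ := h'
  refine ⟨a * b' + a' * b, b * b', by rw [map_mul]; exact mul_ne_zero h1 h1', ?_, ?_⟩
  · rw [map_mul, map_add, map_mul, map_mul, ← h2, ← h2']; ring
  · rw [map_mul, map_add, map_mul, map_mul, ← h3, ← h3']; ring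

include hk in
theorem RV.inv {f : S.F} {w : ℂ} (h : RV S z f w) (hw : w ≠ 0) : RV S z f⁻¹ w⁻¹ := by
  obtain ⟨a, b, h1, h2, h3⟩ := h
  have h4 : bh z a ≠ 0 := by rw [← h3]; exact mul_ne_zero hw h1
  have h5 : ah S a ≠ 0 := fun h => h4 (hk a h)
  have h6 : f ≠ 0 := by
    rintro rfl
    rw [zero_mul] at h2
    exact h5 h2.symm
  refine ⟨b, a, h4, ?_, ?_⟩
  · rw [← h2, inv_mul_cancel_left₀ h6]
  · rw [← h3, inv_mul_cancel_left₀ hw]

theorem RV.C (a : ℂ) : RV S z (algebraMap ℂ S.F a) a := by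
  refine ⟨MvPolynomial.C a, 1, by simp, ?_, ?_⟩
  · rw [map_one, mul_one, ← algebraMap_eq, AlgHom.commutes]
  · rw [map_one, mul_one, ← algebraMap_eq, AlgHom.commutes]; rfl

theorem RV.one : RV S z 1 1 := by
  simpa using RV.C (S := S) (z := z) 1

theorem RV.natCast (n : ℕ) : RV S z (n : S.F) (n : ℂ) := by
  simpa using RV.C (S := S) (z := z) (n : ℂ)

theorem RV.P (I : Finset ℕ) : RV S z (S.P I) ((z I : ℝ) : ℂ) := by
  refine ⟨X I, 1, by simp, ?_, ?_⟩
  · rw [map_one, mul_one, ah, aeval_X]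
  · rw [map_one, mul_one, bh, aeval_X]

theorem RV.pow {f : S.F} {w : ℂ} (h : RV S z f w) (n : ℕ) : RV S z (f ^ n) (w ^ n) := by
  induction n with
  | zero => simpa using RV.one
  | succ n ih => rw [pow_succ, pow_succ]; exact ih.mul h

include hk in
theorem RV.zpow {f : S.F} {w : ℂ} (h : RV S z f w) (hw : w ≠ 0) (n : ℤ) :
    RV S z (f ^ n) (w ^ n) := by
  cases n with
  | ofNat n => simpa using h.pow n
  | negSucc n =>
    rw [zpow_negSucc, zpow_negSucc]
    exact (h.pow _).inv hk (pow_ne_zero _ hw)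

theorem RV.prod {ι : Type*} (s : Finset ι) (f : ι → S.F) (w : ι → ℂ)
    (h : ∀ i ∈ s, RV S z (f i) (w i)) : RV S z (∏ i ∈ s, f i) (∏ i ∈ s, w i) := by
  classical
  induction s using Finset.induction_on with
  | empty => simpa using RV.one
  | insert a s ha ih =>
    rw [Finset.prod_insert ha, Finset.prod_insert ha]
    exact (h a (Finset.mem_insert_self _ _)).mul
      (ih fun i hi => h i (Finset.mem_insert_of_mem hi))

theorem RV.sum {ι : Type*} (s : Finset ι) (f : ι → S.F) (w : ι → ℂ)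
    (h : ∀ i ∈ s, RV S z (f i) (w i)) : RV S z (∑ i ∈ s, f i) (∑ i ∈ s, w i) := by
  classical
  induction s using Finset.induction_on with
  | empty => simpa using RV.C (S := S) (z := z) 0
  | insert a s ha ih =>
    rw [Finset.sum_insert ha, Finset.sum_insert ha]
    exact (h a (Finset.mem_insert_self _ _)).add
      (ih fun i hi => h i (Finset.mem_insert_of_mem hi))

/-- exponents of the monomials with positive value -/
noncomputable def LamR : AddSubgroup (S.V →₀ ℤ) where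
  carrier := {m | ∃ t : ℝ, RV S z (lmono xx m) ((Real.exp t : ℝ) : ℂ)}
  add_mem' := by
    rintro m n ⟨t, ht⟩ ⟨u, hu⟩
    refine ⟨t + u, ?_⟩
    rw [lmono_add _ (fun v => xx_ne_zero v), Real.exp_add, Complex.ofReal_mul]
    exact ht.mul hu
  zero_mem' := by
    refine ⟨0, ?_⟩
    rw [lmono_zero, Real.exp_zero, Complex.ofReal_one]
    exact RV.one
  neg_mem' := by
    rintro m ⟨t, ht⟩
    refine ⟨-t, ?_⟩
    rw [lmono_neg, Real.exp_neg, Complex.ofReal_inv]
    exact ht.inv hk (by exact_mod_cast (Real.exp_pos t).ne')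

/-- the logarithms of the values -/
noncomputable def logR : LamR hk →+ ℝ where
  toFun m := Classical.choose m.2
  map_zero' := by
    have h := Classical.choose_spec (0 : LamR hk).2
    have h2 : RV S z (lmono xx ((0 : LamR hk) : S.V →₀ ℤ)) ((Real.exp 0 : ℝ) : ℂ) := by
      rw [AddSubgroup.coe_zero, lmono_zero, Real.exp_zero, Complex.ofReal_one]
      exact RV.one
    have h3 := h.unique hk h2
    exact Real.exp_injective (by exact_mod_cast h3)
  map_add' := by
    intro m n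
    have h := Classical.choose_spec (m + n).2
    have h2 : RV S z (lmono xx ((m + n : LamR hk) : S.V →₀ ℤ))
        ((Real.exp (Classical.choose m.2 + Classical.choose n.2) : ℝ) : ℂ) := by
      rw [AddSubgroup.coe_add, lmono_add _ (fun v => xx_ne_zero v), Real.exp_add,
        Complex.ofReal_mul]
      exact (Classical.choose_spec m.2).mul (Classical.choose_spec n.2)
    have h3 := h.unique hk h2
    exact Real.exp_injective (by exact_mod_cast h3)

theorem logR_spec (m : LamR hk) :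
    RV S z (lmono xx (m : S.V →₀ ℤ)) ((Real.exp (logR hk m) : ℝ) : ℂ) :=
  Classical.choose_spec m.2

include hk in
/-- positive real values of the variables -/
theorem exists_x : ∃ x : S.V → ℝ, (∀ v, 0 < x v) ∧ ∀ m ∈ LamR hk,
    RV S z (lmono xx m) ((lmono x m : ℝ) : ℂ) := by
  obtain ⟨h, hh⟩ := (Module.Baer.of_divisible ℝ).extension_property_addMonoidHom
    (LamR hk).subtype (AddSubgroup.subtype_injective _) (logR hk)
  refine ⟨fun v => Real.exp (h (Finsupp.single v 1)), fun v => Real.exp_pos _, ?_⟩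
  intro m hm
  have h1 := logR_spec hk ⟨m, hm⟩
  have h2 : logR hk ⟨m, hm⟩ = h m := by
    rw [← hh]; rfl
  rw [h2] at h1
  have h3 : lmono (fun v => Real.exp (h (Finsupp.single v 1))) m = Real.exp (h m) := by
    have h4 : h m = ∑ v ∈ m.support, (m v : ℝ) * h (Finsupp.single v 1) := by
      conv_lhs => rw [← Finsupp.sum_single m, Finsupp.sum, map_sum]
      apply Finset.sum_congr rfl
      intro v _
      have : (Finsupp.single v (m v) : S.V →₀ ℤ) = m v • Finsupp.single v 1 := by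
        rw [Finsupp.smul_single, smul_eq_mul, mul_one]
      rw [this, map_zsmul, zsmul_eq_mul]
    rw [h4, Real.exp_sum, lmono, Finsupp.prod]
    apply Finset.prod_congr rfl
    intro v _
    rw [← Real.rpow_intCast, ← Real.exp_mul, mul_comm]
  rw [h3]
  exact h1

theorem P_sum (I : Finset ℕ) : S.P I =
    ∑ μ ∈ (S.pol I).support, ((coeff μ (S.pol I) : ℕ) : S.F) * lmono xx (zexp μ) := by
  rw [FlatCell.P, FlatCell.ev, eval₂_eq]
  apply Finset.sum_congr rfl
  intro μ _
  rw [lmono_zexp]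
  rfl

theorem ev_sum (x : S.V → ℝ) (I : Finset ℕ) : S.ev x I =
    ∑ μ ∈ (S.pol I).support, ((coeff μ (S.pol I) : ℕ) : ℝ) * lmono x (zexp μ) := by
  rw [FlatCell.ev, eval₂_eq]
  apply Finset.sum_congr rfl
  intro μ _
  rw [lmono_zexp]
  rfl

include hk in
/-- positive points of the closure: `z` is a positive multiple of a point of the cell -/
theorem main_pos (hG : S.HasG) (hW : S.Wf) (hz : ∀ I ∈ S.M, 0 < z I) :
    ∃ x : S.V → ℝ, (∀ v, 0 < x v) ∧ ∃ κ : ℝ, 0 < κ ∧ ∀ I ∈ S.M, z I = κ * S.ev x I := by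
  classical
  obtain ⟨x, hx, hv⟩ := exists_x hk
  have hmon : ∀ f ∈ Mon S.M S.P, ∃ t : ℝ, RV S z f ((Real.exp t : ℝ) : ℂ) := by
    rintro f ⟨n, hn, rfl⟩
    have h1 : RV S z (∏ I ∈ S.M, S.P I ^ n I) (∏ I ∈ S.M, (((z I : ℝ) : ℂ)) ^ n I) := by
      apply RV.prod
      intro I hI
      exact (RV.P I).zpow hk (by exact_mod_cast (hz I hI).ne') _
    have h2 : 0 < ∏ I ∈ S.M, (z I) ^ n I := Finset.prod_pos fun I hI => zpow_pos (hz I hI) _
    refine ⟨Real.log (∏ I ∈ S.M, (z I) ^ n I), ?_⟩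
    rw [Real.exp_log h2]
    push_cast
    exact h1
  have hP0 : ∀ I ∈ S.M, S.P I ≠ 0 := fun I hI => P_ne_zero S I ((hW.ne I).mpr hI)
  have hx0 : ∀ v, x v ≠ 0 := fun v => (hx v).ne'
  have hxx : ∀ v : S.V, (xx v : S.F) ≠ 0 := fun v => xx_ne_zero v
  -- differences of exponents of one coordinate
  have hd : ∀ I ∈ S.M, ∀ J ∈ S.M, ∀ μ ∈ (S.pol I).support, ∀ ν ∈ (S.pol J).support,
      (zexp μ - zexp ν : S.V →₀ ℤ) ∈ LamR hk := by
    intro I hI J hJ μ hμ ν hν
    have h1 := hG I hI μ hμ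
    have h2 := hG J hJ ν hν
    have h3 : lmono xx (zexp μ - zexp ν : S.V →₀ ℤ) =
        (S.P J / S.mono (zexp ν)) / (S.P I / S.mono (zexp μ)) * (S.P I / S.P J) := by
      rw [lmono_sub _ hxx, mono_eq, mono_eq]
      have h4 := lmono_ne_zero xx hxx (zexp μ)
      have h5 := lmono_ne_zero xx hxx (zexp ν)
      have h6 := hP0 I hI
      have h7 := hP0 J hJ
      field_simp
    show ∃ t : ℝ, RV S z (lmono xx (zexp μ - zexp ν)) ((Real.exp t : ℝ) : ℂ)
    rw [h3]
    exact hmon _ (mon_mul hP0 (mon_div hP0 h2 h1) (mon_quot hP0 hI hJ))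
  -- the value of `P I / x^μ`
  have hval : ∀ I ∈ S.M, ∀ μ ∈ (S.pol I).support,
      RV S z (S.P I / lmono xx (zexp μ)) ((S.ev x I / lmono x (zexp μ) : ℝ) : ℂ) := by
    intro I hI μ hμ
    have h1 : S.P I / lmono xx (zexp μ) = ∑ ν ∈ (S.pol I).support,
        ((coeff ν (S.pol I) : ℕ) : S.F) * lmono xx (zexp ν - zexp μ) := by
      rw [P_sum, Finset.sum_div]
      apply Finset.sum_congr rfl
      intro ν _
      rw [lmono_sub _ hxx, mul_div_assoc]
    have h2 : S.ev x I / lmono x (zexp μ) = ∑ ν ∈ (S.pol I).support,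
        ((coeff ν (S.pol I) : ℕ) : ℝ) * lmono x (zexp ν - zexp μ) := by
      rw [ev_sum, Finset.sum_div]
      apply Finset.sum_congr rfl
      intro ν _
      rw [lmono_sub _ hx0, mul_div_assoc]
    rw [h1, h2]
    push_cast
    apply RV.sum
    intro ν hν
    exact (RV.natCast _).mul (hv _ (hd I hI I hI ν hν μ hμ))
  have hevpos : ∀ I ∈ S.M, 0 < S.ev x I := by
    intro I hI
    rw [ev_sum]
    apply Finset.sum_pos
    · intro μ hμ
      apply mul_pos
      · exact_mod_cast Nat.pos_of_ne_zero (mem_support_iff.mp hμ)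
      · rw [lmono, Finsupp.prod]
        exact Finset.prod_pos fun v _ => zpow_pos (hx v) _
    · rw [support_nonempty]
      intro h
      have h1 := hP0 I hI
      rw [P_sum, h] at h1
      simp at h1
  have hlpos : ∀ m : S.V →₀ ℤ, 0 < lmono x m := by
    intro m
    rw [lmono, Finsupp.prod]
    exact Finset.prod_pos fun v _ => zpow_pos (hx v) _
  have hsup : ∀ I ∈ S.M, ∃ μ, μ ∈ (S.pol I).support := by
    intro I hI
    apply support_nonempty.mpr
    intro h
    have h1 := hP0 I hI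
    rw [P_sum, h] at h1
    simp at h1
  obtain ⟨I₀, hI₀⟩ := hW.nonempty
  refine ⟨x, hx, z I₀ / S.ev x I₀, div_pos (hz _ hI₀) (hevpos _ hI₀), ?_⟩
  intro I hI
  obtain ⟨μ, hμ⟩ := hsup I hI
  obtain ⟨ν, hν⟩ := hsup I₀ hI₀
  have h1 : RV S z (S.P I / S.P I₀) ((z I / z I₀ : ℝ) : ℂ) := by
    rw [div_eq_mul_inv, div_eq_mul_inv]
    push_cast
    exact (RV.P I).mul ((RV.P I₀).inv hk (by exact_mod_cast (hz I₀ hI₀).ne'))
  have h2 : RV S z ((S.P I / lmono xx (zexp μ)) * (S.P I₀ / lmono xx (zexp ν))⁻¹ *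
      lmono xx (zexp μ - zexp ν))
      (((S.ev x I / lmono x (zexp μ)) * (S.ev x I₀ / lmono x (zexp ν))⁻¹ *
        lmono x (zexp μ - zexp ν) : ℝ) : ℂ) := by
    rw [Complex.ofReal_mul, Complex.ofReal_mul, Complex.ofReal_inv]
    refine ((hval I hI μ hμ).mul ((hval I₀ hI₀ ν hν).inv hk ?_)).mul
      (hv _ (hd I hI I₀ hI₀ μ hμ ν hν))
    exact_mod_cast (div_pos (hevpos I₀ hI₀) (hlpos _)).ne'
  have h3 : (S.P I / lmono xx (zexp μ)) * (S.P I₀ / lmono xx (zexp ν))⁻¹ *
      lmono xx (zexp μ - zexp ν) = S.P I / S.P I₀ := by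
    rw [lmono_sub _ hxx]
    have h4 := lmono_ne_zero xx hxx (zexp μ)
    have h5 := lmono_ne_zero xx hxx (zexp ν)
    have h6 := hP0 I hI
    have h7 := hP0 I₀ hI₀
    field_simp
  rw [h3] at h2
  have h4 := h1.unique hk h2
  have h5 : z I / z I₀ = (S.ev x I / lmono x (zexp μ)) * (S.ev x I₀ / lmono x (zexp ν))⁻¹ *
        lmono x (zexp μ - zexp ν) := by exact_mod_cast h4
  rw [lmono_sub _ hx0] at h5
  have h6 := (hlpos (zexp μ)).ne'
  have h7 := (hlpos (zexp ν)).ne'
  have h8 := (hevpos I₀ hI₀).ne'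
  have h9 := (hz I₀ hI₀).ne'
  field_simp at h5 ⊢
  linear_combination h5

end

/-- VUNI -/
theorem vuni (hG : GgenStmt) (hZ : ZvtxStmt) : UniformStmt := by
  intro l r hl h2 h3 z hz hpos
  have hV : (Net.gen l r).Valid := ⟨hl, h2, h3⟩
  have hW := Net.wf' _ hV
  have hk : ∀ f, ah (Net.gen l r).flat f = 0 → bh z f = 0 := by
    intro f hf
    apply hz f
    rw [(hZ.2 l r f hV)]
    intro x
    have h4 : aeval (Net.gen l r).flat.P f = IsScalarTower.toAlgHom ℂ
        (MvPolynomial (Net.gen l r).flat.V ℂ) (Net.gen l r).flat.F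
        (aeval ((Net.gen l r).flat.ev
          (X : (Net.gen l r).flat.V → MvPolynomial (Net.gen l r).flat.V ℂ)) f) := by
      rw [comp_aeval_apply]
      congr 2
      funext I
      rw [FlatCell.P]
      exact (map_ev _ (algebraMap (MvPolynomial (Net.gen l r).flat.V ℂ)
        (Net.gen l r).flat.F) _ I).symm
    have h5 : aeval ((Net.gen l r).flat.ev
        (X : (Net.gen l r).flat.V → MvPolynomial (Net.gen l r).flat.V ℂ)) f = 0 := by
      apply IsFractionRing.injective (MvPolynomial (Net.gen l r).flat.V ℂ) (Net.gen l r).flat.F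
      rw [map_zero]
      exact h4.symm.trans hf
    have h6 := congrArg (aeval x : MvPolynomial (Net.gen l r).flat.V ℂ →ₐ[ℂ] ℂ) h5
    rw [map_zero, comp_aeval_apply] at h6
    have h7 : (fun I => (aeval x : MvPolynomial (Net.gen l r).flat.V ℂ →ₐ[ℂ] ℂ)
        ((Net.gen l r).flat.ev X I)) = (Net.gen l r).flat.ev x := by
      funext I
      have := map_ev (Net.gen l r).flat
        (aeval x : MvPolynomial (Net.gen l r).flat.V ℂ →ₐ[ℂ] ℂ).toRingHom X I
      refine this.trans ?_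
      congr 1
      funext v
      exact aeval_X x v
    rw [h7] at h6
    exact h6
  obtain ⟨x, hx, κ, hκ, h⟩ := main_pos hk (hG l r hV) (wfStmt _ hV).1 hpos
  rw [← hZ.1 l r (Net.gen l r) (Net.IsVtx.gen l r h2 h3) hl]
  have hr : r ≠ 0 := by omega
  have ha : 0 < κ ^ ((r : ℝ)⁻¹) := Real.rpow_pos_of_pos hκ _
  refine ⟨fun v => match v with
    | Sum.inl i => κ ^ ((r : ℝ)⁻¹) * x (Sum.inl i)
    | Sum.inr h => x (Sum.inr h), ?_, ?_⟩
  · rintro (i | h)
    · exact mul_pos ha (hx _)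
    · exact hx _
  · funext I
    by_cases hI : I ∈ (Net.gen l r).M
    · have e := ev_scale (Net.gen l r).flat x (fun v => match v with
        | Sum.inl i => κ ^ ((r : ℝ)⁻¹) * x (Sum.inl i)
        | Sum.inr h => x (Sum.inr h)) (κ ^ ((r : ℝ)⁻¹)) I (fun _ _ => rfl) (fun _ => rfl)
      have e2 : I.card = r := hW.card I hI
      rw [e2, Real.rpow_inv_natCast_pow hκ.le hr] at e
      rw [h I hI, ← e]
    · rw [ev_ne_mem hV _ I hI]
      have h1 := hz (X I) (by
        intro κ c t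
        have hI' : I ∉ l.toFinset.powersetCard r := hI
        rw [aeval_X, Q, if_neg hI'])
      rw [aeval_X] at h1
      exact_mod_cast h1

end H74

end ABCT
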