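import Pool.Agent.Helper32_ABCT.Stmts2

/-!
# Monomial values, counting of pairs (MP_a17fcb_ag, for CG3)
-/

open MvPolynomial

namespace ABCT

namespace H74

open FlatCell

/-! ### values of the monomials of a polynomial -/

section MV

variable {V K : Type*} [Field K]

/-- the values of the monomials of a polynomial with natural coefficients -/
def MV (y : V → K) (f : MvPolynomial V ℕ) : Set K :=
  {z | ∃ m ∈ f.support, z = m.prod fun v n => y v ^ n}

theorem MV_mul (y : V → K) (f g : MvPolynomial V ℕ) {z : K} (h : z ∈ MV y (f * g)) :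
    ∃ a ∈ MV y f, ∃ b ∈ MV y g, z = a * b := by
  obtain ⟨m, hm, rfl⟩ := h
  rw [natpoly_support_mul] at hm
  obtain ⟨a, ha, b, hb, rfl⟩ := hm
  refine ⟨_, ⟨a, ha, rfl⟩, _, ⟨b, hb, rfl⟩, ?_⟩
  exact Finsupp.prod_add_index' (fun _ => pow_zero _) (fun _ _ _ => pow_add _ _ _)

theorem MV_one (y : V → K) {z : K} (h : z ∈ MV y 1) : z = 1 := by
  classical
  obtain ⟨m, hm, rfl⟩ := h
  have : m = 0 := by
    by_contra h0
    rw [mem_support_iff] at hm
    apply hm
    rw [coeff_one, if_neg (Ne.symm h0)]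
  subst this
  simp

theorem MV_X (y : V → K) (v : V) {z : K} (h : z ∈ MV y (X v)) : z = y v := by
  obtain ⟨m, hm, rfl⟩ := h
  rw [support_X, Finset.mem_singleton] at hm
  subst hm
  simp [Finsupp.prod_single_index]

theorem MV_rename {W : Type*} (ι : W → V) (y : V → K) (f : MvPolynomial W ℕ) {z : K}
    (h : z ∈ MV y (rename ι f)) : z ∈ MV (fun w => y (ι w)) f := by
  obtain ⟨m, hm, rfl⟩ := h
  rw [mem_support_iff] at hm
  obtain ⟨u, hu, hu'⟩ := coeff_rename_ne_zero _ _ _ hm
  refine ⟨u, mem_support_iff.mpr hu', ?_⟩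
  rw [← hu]
  exact Finsupp.prod_mapDomain_index (fun _ => pow_zero _) (fun _ _ _ => pow_add _ _ _)

theorem MV_sum {ι : Type*} (s : Finset ι) (f : ι → MvPolynomial V ℕ) (y : V → K) {z : K}
    (h : z ∈ MV y (∑ i ∈ s, f i)) : ∃ i ∈ s, z ∈ MV y (f i) := by
  classical
  obtain ⟨m, hm, rfl⟩ := h
  have := support_sum hm
  rw [Finset.mem_biUnion] at this
  obtain ⟨i, hi, h⟩ := this
  exact ⟨i, hi, m, h, rfl⟩

theorem MV_prod {ι : Type*} (s : Finset ι) (f : ι → MvPolynomial V ℕ) (y : V → K) {z : K}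
    (h : z ∈ MV y (∏ i ∈ s, f i)) : ∃ c : ι → K, (∀ i ∈ s, c i ∈ MV y (f i)) ∧
      z = ∏ i ∈ s, c i := by
  classical
  induction s using Finset.induction_on generalizing z with
  | empty =>
    rw [Finset.prod_empty] at h
    exact ⟨fun _ => 1, by simp, by simpa using MV_one y h⟩
  | insert a s ha ih =>
    rw [Finset.prod_insert ha] at h
    obtain ⟨u, hu, v, hv, rfl⟩ := MV_mul y _ _ h
    obtain ⟨c, hc, rfl⟩ := ih hv
    refine ⟨fun i => if i = a then u else c i, ?_, ?_⟩
    · intro i hi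
      by_cases e : i = a
      · subst e; simpa using hu
      · simp only [e, if_false]
        exact hc i ((Finset.mem_insert.mp hi).resolve_left e)
    · rw [Finset.prod_insert ha, if_pos rfl]
      congr 1
      apply Finset.prod_congr rfl
      intro i hi
      rw [if_neg]
      rintro rfl
      exact ha hi

/-- the monomials of the coordinates of a one-vertex net -/
theorem vtx_mono {l : List ℕ} {r : ℕ} {S : Net} {g : ℕ → MvPolynomial S.G ℕ}
    (hg : VtxG l r S g) (y : S.flat.V → K) (J : Finset ℕ) (z : K)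
    (hz : z ∈ MV y (S.flat.pol J)) :
    ∃ c : ℕ × ℕ → K, (∀ p ∈ Net.prs l J, ∃ h ∈ Finset.Ico p.1 p.2,
        c p = eval₂ (Nat.castRingHom K) (fun v => y (Sum.inr v)) (g h)) ∧
      z = (∏ i ∈ J, y (Sum.inl i)) * ∏ p ∈ Net.prs l J, c p := by
  rw [FlatCell.pol] at hz
  obtain ⟨a, ha, b, hb, rfl⟩ := MV_mul y _ _ hz
  have h1 : a = ∏ i ∈ J, y (Sum.inl i) := by
    obtain ⟨c, hc, rfl⟩ := MV_prod _ _ _ ha
    exact Finset.prod_congr rfl fun i hi => MV_X y _ (hc i hi)
  have h2 := MV_rename _ _ _ hb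
  have h3 : S.flat.Δ J = if J ∈ l.toFinset.powersetCard r then
      ∏ p ∈ Net.prs l J, ∑ h ∈ Finset.Ico p.1 p.2, g h else 0 := hg.1 J
  rw [h3] at h2
  by_cases hJ : J ∈ l.toFinset.powersetCard r
  · rw [if_pos hJ] at h2
    obtain ⟨c, hc, rfl⟩ := MV_prod _ _ _ h2
    refine ⟨c, ?_, by rw [h1]⟩
    intro p hp
    obtain ⟨h, hh, hz'⟩ := MV_sum _ _ _ (hc p hp)
    refine ⟨h, hh, ?_⟩
    rw [Net.prs, Finset.mem_filter, Finset.mem_product, Finset.mem_range, Finset.mem_range] at hp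
    rw [Finset.mem_Ico] at hh
    rcases hg.2.2.2.2 with ⟨e, he⟩ | ⟨h5, h6, h7⟩
    · have hlt : h < l.length - 2 := by omega
      have := he ⟨h, hlt⟩
      simp only at this
      rw [this] at hz' ⊢
      rw [MV_X _ _ hz', eval₂_X]
    · have h0 : h = 0 := by omega
      subst h0
      rw [h7] at hz' ⊢
      rw [MV_one _ hz', eval₂_one]
  · rw [if_neg hJ] at h2
    obtain ⟨m, hm, _⟩ := h2
    simp at hm

end MV

/-! ### equality up to a degree zero monomial -/

section Eqv

variable {K : Type*} [Field K] {M : Finset (Finset ℕ)} {p : Finset ℕ → K}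

/-- equality up to a degree zero Laurent monomial in the coordinates -/
def Eqv (M : Finset (Finset ℕ)) (p : Finset ℕ → K) (f g : K) : Prop := ∃ h ∈ Mon M p, f = h * g

theorem Eqv.refl (f : K) : Eqv M p f f := ⟨1, mon_one, (one_mul f).symm⟩

theorem Eqv.of_eq {f g : K} (h : f = g) : Eqv M p f g := h ▸ Eqv.refl f

theorem Eqv.of_div {f g : K} (hg : g ≠ 0) (h : f / g ∈ Mon M p) : Eqv M p f g :=
  ⟨_, h, (div_mul_cancel₀ f hg).symm⟩

theorem Eqv.mul (hp : ∀ I ∈ M, p I ≠ 0) {f g f' g' : K} (h : Eqv M p f g) (h' : Eqv M p f' g') :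
    Eqv M p (f * f') (g * g') := by
  obtain ⟨a, ha, rfl⟩ := h
  obtain ⟨b, hb, rfl⟩ := h'
  exact ⟨a * b, mon_mul hp ha hb, by ring⟩

theorem Eqv.inv {f g : K} (h : Eqv M p f g) : Eqv M p f⁻¹ g⁻¹ := by
  obtain ⟨a, ha, rfl⟩ := h
  exact ⟨a⁻¹, mon_inv ha, mul_inv _ _⟩

theorem Eqv.div (hp : ∀ I ∈ M, p I ≠ 0) {f g f' g' : K} (h : Eqv M p f g) (h' : Eqv M p f' g') :
    Eqv M p (f / f') (g / g') := by
  rw [div_eq_mul_inv, div_eq_mul_inv]
  exact h.mul hp h'.inv

theorem Eqv.trans (hp : ∀ I ∈ M, p I ≠ 0) {f g h : K} (h1 : Eqv M p f g) (h2 : Eqv M p g h) :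
    Eqv M p f h := by
  obtain ⟨a, ha, rfl⟩ := h1
  obtain ⟨b, hb, rfl⟩ := h2
  exact ⟨a * b, mon_mul hp ha hb, by ring⟩

theorem Eqv.pow (hp : ∀ I ∈ M, p I ≠ 0) {f g : K} (h : Eqv M p f g) (n : ℕ) :
    Eqv M p (f ^ n) (g ^ n) := by
  obtain ⟨a, ha, rfl⟩ := h
  exact ⟨a ^ n, mon_pow hp ha n, mul_pow _ _ _⟩

theorem Eqv.prod (hp : ∀ I ∈ M, p I ≠ 0) {ι : Type*} (s : Finset ι) (f g : ι → K)
    (h : ∀ i ∈ s, Eqv M p (f i) (g i)) : Eqv M p (∏ i ∈ s, f i) (∏ i ∈ s, g i) := by
  classical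
  induction s using Finset.induction_on with
  | empty => simpa using Eqv.refl 1
  | insert a s ha ih =>
    rw [Finset.prod_insert ha, Finset.prod_insert ha]
    exact (h a (Finset.mem_insert_self _ _)).mul hp
      (ih fun i hi => h i (Finset.mem_insert_of_mem hi))

theorem Eqv.mem {f : K} (h : Eqv M p f 1) : f ∈ Mon M p := by
  obtain ⟨a, ha, rfl⟩ := h
  simpa using ha

end Eqv

/-! ### counting pairs -/

section count

/-- the pairs `x < y` of elements of `P` -/
def prP (P : Finset ℕ) : Finset (ℕ × ℕ) := (P ×ˢ P).filter fun p => p.1 < p.2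

theorem card_prP (P : Finset ℕ) : 2 * (prP P).card + P.card = P.card * P.card := by
  classical
  have h1 : (P ×ˢ P).card = P.card * P.card := Finset.card_product _ _
  have h2 := Finset.card_filter_add_card_filter_not (s := P ×ˢ P) (fun p : ℕ × ℕ => p.1 < p.2)
  have h3 := Finset.card_filter_add_card_filter_not
    (s := (P ×ˢ P).filter (fun p : ℕ × ℕ => ¬ p.1 < p.2)) (fun p : ℕ × ℕ => p.1 = p.2)
  have h4 : (((P ×ˢ P).filter (fun p : ℕ × ℕ => ¬ p.1 < p.2)).filter
      (fun p : ℕ × ℕ => p.1 = p.2)).card = P.card := by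
    symm
    apply Finset.card_bij (fun x _ => (x, x))
    · intro a ha
      simp [ha]
    · intro a _ b _ h
      exact (Prod.ext_iff.mp h).1
    · rintro ⟨a, b⟩ h
      simp only [Finset.mem_filter, Finset.mem_product] at h
      exact ⟨a, h.1.1.1, by rw [Prod.mk.injEq]; exact ⟨rfl, h.2⟩⟩
  have h5 : (((P ×ˢ P).filter (fun p : ℕ × ℕ => ¬ p.1 < p.2)).filter
      (fun p : ℕ × ℕ => ¬ p.1 = p.2)).card = (prP P).card := by
    symm
    apply Finset.card_bij (fun x _ => (x.2, x.1))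
    · rintro ⟨a, b⟩ h
      simp only [prP, Finset.mem_filter, Finset.mem_product] at h ⊢
      refine ⟨⟨⟨h.1.2, h.1.1⟩, by omega⟩, by omega⟩
    · rintro ⟨a, b⟩ _ ⟨a', b'⟩ _ h
      simp only [Prod.mk.injEq] at h ⊢
      exact ⟨h.2, h.1⟩
    · rintro ⟨a, b⟩ h
      simp only [Finset.mem_filter, Finset.mem_product] at h
      refine ⟨(b, a), ?_, rfl⟩
      simp only [prP, Finset.mem_filter, Finset.mem_product]
      exact ⟨⟨h.1.1.2, h.1.1.1⟩, by omega⟩
  rw [h4, h5] at h3
  change (prP P).card + _ = _ at h2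
  omega

/-- the nonroot positions with labels in `I` -/
def pos (l : List ℕ) (I : Finset ℕ) : Finset ℕ :=
  (Finset.range (l.length - 1)).filter fun x => l.getD x 0 ∈ I

theorem prs_eq (l : List ℕ) (I : Finset ℕ) : Net.prs l I = prP (pos l I) := by
  ext ⟨x, y⟩
  simp only [Net.prs, prP, pos, Finset.mem_filter, Finset.mem_product]
  tauto

theorem card_pos_aux (t : List ℕ) (I : Finset ℕ) (m : List ℕ) :
    ((Finset.range m.length).filter fun x => (m ++ t).getD x 0 ∈ I).card =
      m.countP (· ∈ I) := by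
  induction m using List.reverseRecOn generalizing t with
  | nil => simp
  | append_singleton m a ih =>
    rw [List.length_append, List.length_singleton, Finset.range_add_one, Finset.filter_insert,
      List.countP_append]
    have h1 : (m ++ [a] ++ t).getD m.length 0 = a := by
      simp [List.getD_eq_getElem?_getD]
    have h2 := ih ([a] ++ t)
    rw [← List.append_assoc] at h2
    rw [h1, List.countP_singleton]
    by_cases ha : a ∈ I
    · rw [if_pos ha, Finset.card_insert_of_notMem (by simp), h2]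
      simp [ha]
    · rw [if_neg ha, h2]
      simp [ha]

theorem card_pos (m : List ℕ) (ρ : ℕ) (I : Finset ℕ) :
    (pos (m ++ [ρ]) I).card = m.countP (· ∈ I) := by
  rw [pos, List.length_append, List.length_singleton, Nat.add_sub_cancel]
  exact card_pos_aux [ρ] I m

theorem countP_inter (m : List ℕ) (hm : m.Nodup) (I : Finset ℕ) :
    m.countP (· ∈ I) = (I ∩ m.toFinset).card := by
  rw [List.countP_eq_length_filter, ← List.toFinset_card_of_nodup (hm.filter _)]
  congr 1
  ext x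
  simp [and_comm]

end count

end H74

end ABCT
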